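import Pool.Agent.V8H69.TD.Main
import Pool.Agent.V8H69.TD.Lower
import Pool.Agent.V8H69.TD.Base
import Pool.Agent.V8H69.TD.B5
import Pool.Agent.V8H69.TD.B4
import Pool.Agent.V8H69.TD.B3
import Pool.Agent.V8H69.TD.Two
import Pool.Agent.V8H61.TD.P1
import Pool.Agent.V8H61.TD.KM
import Pool.Agent.V8H98.TD.P3

/-!
# MP_6f5538_al: the uniform domination number of `A_14` is smaller than the base size
-/

set_option autoImplicit false

namespace Pool.Agent.Results.MP_6f5538_al.FourElementsInDegreeFourteen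

open Equiv

/-- `S` is a total dominating set of the group `G`. -/
def IsTDS (G : Type) [Group G] (S : Finset G) : Prop :=
  ∀ x : G, x ≠ 1 → ∃ s ∈ S, Subgroup.closure ({x, s} : Set G) = ⊤

/-- The uniform domination number of `G`: the smallest size of a total dominating set contained in one
conjugacy class. -/
noncomputable def gammaU (G : Type) [Group G] : ℕ :=
  sInf {c | ∃ S : Finset G, S.card = c ∧ IsTDS G S ∧ ∃ s : G, ∀ t ∈ S, IsConj s t}

/-- The base size of `A_n` in its action on the `k`-element subsets of `Fin n`: the smallest number of `k`-element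
subsets such that only the identity of `A_n` fixes all of them. -/
noncomputable def baseSize (n k : ℕ) : ℕ :=
  sInf {c | ∃ B : Finset (Finset (Fin n)), B.card = c ∧ (∀ b ∈ B, b.card = k) ∧
    ∀ x : alternatingGroup (Fin n), (∀ b ∈ B, b.map (x : Perm (Fin n)).toEmbedding = b) → x = 1}

theorem main4 (x : Perm (Fin 14)) (hs : Perm.sign x = 1) (hx : x ≠ 1) :
    ∃ i, alternatingGroup (Fin 14) ≤ Subgroup.closure ({x, Pool.Agent.V8H69.TD.s i} : Set (Perm (Fin 14))) := by
  have hjor : Pool.Agent.V8H69.TD.JOR := Pool.Agent.V8H69.TD.jor Pool.Agent.V8H61.TD.p1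
  have h4a : Pool.Agent.V8H69.TD.B4A := Pool.Agent.V8H69.TD.b4a Pool.Agent.V8H61.TD.p1
    (Pool.Agent.V8H61.TD.km Pool.Agent.V8H69.TD.b3)
  exact Pool.Agent.V8H69.TD.main hjor h4a Pool.Agent.V8H69.TD.b4b Pool.Agent.V8H69.TD.b5 x hs hx

theorem tds : ∃ S : Finset (alternatingGroup (Fin 14)), S.card = 4 ∧ IsTDS (alternatingGroup (Fin 14)) S ∧
    (∃ s, ∀ t ∈ S, IsConj s t) ∧ ∀ t ∈ S, (t : Perm (Fin 14)).cycleType = {7, 7} := by
  classical
  refine ⟨Finset.univ.image Pool.Agent.V8H69.TD.sA, ?_, ?_, ⟨⟨Pool.Agent.V8H69.TD.sS,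
    Perm.mem_alternatingGroup.2 Pool.Agent.V8H69.TD.sign_sS⟩, ?_⟩, ?_⟩
  · rw [Finset.card_image_of_injective _ Pool.Agent.V8H69.TD.sA_inj]; rfl
  · intro x hx
    obtain ⟨i, hi⟩ := main4 (x : Perm (Fin 14)) (Perm.mem_alternatingGroup.1 x.2)
      (fun h => hx (Subtype.ext h))
    exact ⟨Pool.Agent.V8H69.TD.sA i, Finset.mem_image_of_mem _ (Finset.mem_univ i),
      Pool.Agent.V8H69.TD.closure_eq_top hi⟩
  · intro t ht
    obtain ⟨i, _, rfl⟩ := Finset.mem_image.1 ht
    exact Pool.Agent.V8H69.TD.conj_sA i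
  · intro t ht
    obtain ⟨i, _, rfl⟩ := Finset.mem_image.1 ht
    exact Pool.Agent.V8H69.TD.cycleType_sA i

theorem base_five : ∃ B : Finset (Finset (Fin 14)), B.card = 5 ∧ (∀ b ∈ B, b.card = 5) ∧
    ∀ x : alternatingGroup (Fin 14), (∀ b ∈ B, b.map (x : Perm (Fin 14)).toEmbedding = b) → x = 1 := by
  obtain ⟨B, h1, h2, h3⟩ := Pool.Agent.V8H69.TD.base_five
  exact ⟨B, h1, h2, fun x hx => Subtype.ext (h3 x hx)⟩

theorem base_eq : baseSize 14 5 = 5 := by
  unfold baseSize
  apply le_antisymm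
  · exact Nat.sInf_le base_five
  · refine le_csInf ⟨5, base_five⟩ ?_
    rintro c ⟨B, rfl, hB, hx⟩
    by_contra hcon
    push Not at hcon
    obtain ⟨g, hg1, hg2, hg3⟩ := Pool.Agent.V8H98.TD.p3 B (by omega) hB
    apply hg2
    have := hx ⟨g, Perm.mem_alternatingGroup.2 hg1⟩ hg3
    exact congrArg Subtype.val this

theorem gamma_eq : gammaU (alternatingGroup (Fin 14)) = 4 := by
  unfold gammaU
  obtain ⟨S, h1, h2, h3, _⟩ := tds
  apply le_antisymm
  · exact Nat.sInf_le ⟨S, h1, h2, h3⟩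
  · refine le_csInf ⟨4, S, h1, h2, h3⟩ ?_
    rintro c ⟨S, rfl, hS, _⟩
    exact Pool.Agent.V8H69.TD.lower S hS

/-- Q1 of the problem: for every even `n = 2 m ≥ 8`, with `k` the largest odd integer below `m`,
`γ_u(A_n) = b(A_n, Σ_k)`. -/
def Q1 : Prop := ∀ m k : ℕ, 4 ≤ m → Odd k → k < m → (∀ j, Odd j → j < m → j ≤ k) →
  gammaU (alternatingGroup (Fin (2 * m))) = baseSize (2 * m) k

/-- `A_14` has a total dominating set with four elements in the conjugacy class of shape `[7, 7]`, its uniform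
domination number is `4`, and its base size on the `5`-element subsets is `5`; so the answer to Q1 is negative. -/
theorem result : (∃ S : Finset (alternatingGroup (Fin 14)), S.card = 4 ∧ IsTDS (alternatingGroup (Fin 14)) S ∧
    (∃ s, ∀ t ∈ S, IsConj s t) ∧ ∀ t ∈ S, (t : Perm (Fin 14)).cycleType = {7, 7}) ∧
    gammaU (alternatingGroup (Fin 14)) = 4 ∧ baseSize 14 5 = 5 ∧ ¬ Q1 := by
  refine ⟨tds, gamma_eq, base_eq, ?_⟩
  intro h
  have h1 := h 7 5 (by norm_num) (by decide) (by norm_num) (by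
    intro j hj hj7
    rcases hj with ⟨k, rfl⟩
    omega)
  have h2 : gammaU (alternatingGroup (Fin (2 * 7))) = 4 := gamma_eq
  have h3 : baseSize (2 * 7) 5 = 5 := base_eq
  rw [h2, h3] at h1
  exact absurd h1 (by norm_num)

end Pool.Agent.Results.MP_6f5538_al.FourElementsInDegreeFourteen
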